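import Pool.Agent.Helper57.QZ.Stmts2

/-!
# Row EU: upper bounds for the exponents
-/

set_option autoImplicit false

namespace Pool.Agent.Helper57.QZ

open MeasureTheory Set Filter Topology

theorem EU_step (δ : ℝ) (hδ : 0 < δ) (m : ℕ) (hm : 1 ≤ m) :
    ((m + 1 : ℕ) : ℝ) ^ (-(1 + δ)) ≤ 1 / δ * ((m : ℝ) ^ (-δ) - ((m + 1 : ℕ) : ℝ) ^ (-δ)) := by
  have hm0 : (0:ℝ) < m := by exact_mod_cast hm
  push_cast
  generalize (m : ℝ) = a at hm0
  have ha1 : 0 < a + 1 := by linarith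
  have h1 : a ^ (-δ) = (a + 1) ^ (-δ) * Real.exp (δ * Real.log ((a + 1) / a)) := by
    rw [Real.rpow_def_of_pos hm0, Real.rpow_def_of_pos ha1, ← Real.exp_add,
      Real.log_div ha1.ne' hm0.ne']
    congr 1; ring
  have h2 : 1 / (a + 1) ≤ Real.log ((a + 1) / a) := by
    have h0 := Real.log_le_sub_one_of_pos (show 0 < a / (a + 1) by positivity)
    have h3 : Real.log ((a + 1) / a) = - Real.log (a / (a + 1)) := by
      rw [← Real.log_inv, inv_div]
    have h5 : a / (a + 1) - 1 = - (1 / (a + 1)) := by field_simp; ring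
    rw [h3]
    linarith
  have h4 : 1 + δ / (a + 1) ≤ Real.exp (δ * Real.log ((a + 1) / a)) := by
    have h0 := Real.add_one_le_exp (δ * Real.log ((a + 1) / a))
    have h5 : δ * (1 / (a + 1)) ≤ δ * Real.log ((a + 1) / a) :=
      mul_le_mul_of_nonneg_left h2 hδ.le
    have h6 : δ / (a + 1) = δ * (1 / (a + 1)) := by ring
    linarith
  have h6 : (a + 1) ^ (-(1 + δ)) = (a + 1) ^ (-δ) * (1 / (a + 1)) := by
    rw [show -(1 + δ) = -δ + (-1) by ring, Real.rpow_add ha1, Real.rpow_neg_one]; ring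
  rw [h6, h1]
  have hp : 0 < (a + 1) ^ (-δ) := Real.rpow_pos_of_pos ha1 _
  have h7 := mul_le_mul_of_nonneg_left h4 hp.le
  calc (a + 1) ^ (-δ) * (1 / (a + 1)) = 1 / δ * ((a + 1) ^ (-δ) * (δ / (a + 1))) := by
        field_simp
    _ ≤ _ := by
        apply mul_le_mul_of_nonneg_left _ (by positivity)
        linarith

theorem EU_tail (δ : ℝ) (hδ : 0 < δ) (M N : ℕ) (hM : 1 ≤ M) :
    ∑ n ∈ Finset.Ioc M N, (n : ℝ) ^ (-(1 + δ)) ≤ 1 / δ * (M : ℝ) ^ (-δ) := by
  rcases Nat.lt_or_ge N M with h | h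
  · rw [Finset.Ioc_eq_empty (by omega), Finset.sum_empty]; positivity
  · have key : ∑ n ∈ Finset.Ioc M N, (n : ℝ) ^ (-(1 + δ)) ≤
        1 / δ * ((M : ℝ) ^ (-δ) - (N : ℝ) ^ (-δ)) := by
      induction N, h using Nat.le_induction with
      | base => simp
      | succ k hk ih =>
        rw [Finset.sum_Ioc_succ_top (by omega)]
        have := EU_step δ hδ k (by omega)
        have h2 : 1 / δ * ((M : ℝ) ^ (-δ) - ((k + 1 : ℕ) : ℝ) ^ (-δ)) =
          1 / δ * ((M : ℝ) ^ (-δ) - (k : ℝ) ^ (-δ)) +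
          1 / δ * ((k : ℝ) ^ (-δ) - ((k + 1 : ℕ) : ℝ) ^ (-δ)) := by ring
        rw [h2]
        exact add_le_add ih this
    refine key.trans ?_
    apply mul_le_mul_of_nonneg_left _ (by positivity)
    have : 0 ≤ (N : ℝ) ^ (-δ) := by positivity
    linarith

theorem EU_split (y M : ℕ) (F B1 B2 : ℕ → ℝ) (h1 : ∀ n, 1 ≤ n → n ≤ M → F n ≤ B1 n)
    (h2 : ∀ n, M < n → F n ≤ B2 n) (n1 : ∀ n, 0 ≤ B1 n) (n2 : ∀ n, 0 ≤ B2 n) :
    ∑ p : Pr y, F p ≤ ∑ n ∈ Finset.Icc 1 M, B1 n + ∑ n ∈ Finset.Ioc M y, B2 n := by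
  rw [← Finset.sum_subtype (Nat.primesBelow (y + 1)) (fun _ => Iff.rfl) F,
    ← Finset.sum_filter_add_sum_filter_not _ (fun n => n ≤ M)]
  apply add_le_add
  · refine (Finset.sum_le_sum (g := B1) ?_).trans
      (Finset.sum_le_sum_of_subset_of_nonneg ?_ fun _ _ _ => n1 _)
    · intro n hn
      rw [Finset.mem_filter, Nat.mem_primesBelow] at hn
      exact h1 n hn.1.2.one_lt.le hn.2
    · intro n hn
      rw [Finset.mem_filter, Nat.mem_primesBelow] at hn
      rw [Finset.mem_Icc]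
      exact ⟨hn.1.2.one_lt.le, hn.2⟩
  · refine (Finset.sum_le_sum (g := B2) ?_).trans
      (Finset.sum_le_sum_of_subset_of_nonneg ?_ fun _ _ _ => n2 _)
    · intro n hn
      rw [Finset.mem_filter, Nat.mem_primesBelow] at hn
      exact h2 n (by omega)
    · intro n hn
      rw [Finset.mem_filter, Nat.mem_primesBelow] at hn
      rw [Finset.mem_Ioc]
      omega

theorem EU_tz (δ z : ℝ) (hδ : 0 < δ) (hz : 2 ≤ z) (N : ℕ) :
    ∑ n ∈ Finset.Ioc ⌊z⌋₊ N, (z / n) ^ (1 + δ) ≤ 2 ^ δ / δ * z := by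
  have hM : 1 ≤ ⌊z⌋₊ := by
    rw [Nat.one_le_floor_iff]; linarith
  have hz0 : 0 < z := by linarith
  have h1 : ∑ n ∈ Finset.Ioc ⌊z⌋₊ N, (z / n) ^ (1 + δ) =
      z ^ (1 + δ) * ∑ n ∈ Finset.Ioc ⌊z⌋₊ N, (n : ℝ) ^ (-(1 + δ)) := by
    rw [Finset.mul_sum]
    apply Finset.sum_congr rfl
    intro n _
    rw [Real.div_rpow hz0.le (by positivity), Real.rpow_neg (by positivity)]; rfl
  have h2 := EU_tail δ hδ ⌊z⌋₊ N hM
  have h3 : (⌊z⌋₊ : ℝ) ^ (-δ) ≤ (z / 2) ^ (-δ) := by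
    apply Real.rpow_le_rpow_of_nonpos (by linarith) _ (by linarith)
    have := Nat.lt_floor_add_one z
    have h5 : (1:ℝ) ≤ ⌊z⌋₊ := by exact_mod_cast hM
    linarith
  have h4 : z ^ (1 + δ) * (1 / δ * (z / 2) ^ (-δ)) = 2 ^ δ / δ * z := by
    rw [Real.rpow_add hz0, Real.rpow_one, Real.div_rpow hz0.le (by norm_num), Real.rpow_neg hz0.le,
      Real.rpow_neg (by norm_num)]
    have : z ^ δ ≠ 0 := (Real.rpow_pos_of_pos hz0 _).ne'
    have : (2:ℝ) ^ δ ≠ 0 := by positivity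
    field_simp
  rw [h1, ← h4]
  apply mul_le_mul_of_nonneg_left _ (by positivity)
  refine h2.trans ?_
  apply mul_le_mul_of_nonneg_left h3 (by positivity)

theorem EU_harm (z : ℝ) (hz : 2 ≤ z) :
    ∑ n ∈ Finset.Icc 1 ⌊z⌋₊, z / (n : ℝ) ≤ 3 * z * Real.log z := by
  have h1 : ∑ n ∈ Finset.Icc 1 ⌊z⌋₊, z / (n : ℝ) = z * (harmonic ⌊z⌋₊ : ℝ) := by
    rw [harmonic_eq_sum_Icc, Rat.cast_sum, Finset.mul_sum]
    apply Finset.sum_congr rfl
    intro n _
    push_cast
    rfl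
  have hM : 1 ≤ ⌊z⌋₊ := by
    rw [Nat.one_le_floor_iff]; linarith
  have h2 := harmonic_le_one_add_log ⌊z⌋₊
  have h3 : Real.log ⌊z⌋₊ ≤ Real.log z :=
    Real.log_le_log (by exact_mod_cast hM) (Nat.floor_le (by linarith))
  have h4 : 1 / 2 ≤ Real.log z := by
    have := Real.log_two_gt_d9
    have := Real.log_le_log (by norm_num) hz
    linarith
  rw [h1, show 3 * z * Real.log z = z * (3 * Real.log z) by ring]
  apply mul_le_mul_of_nonneg_left _ (by linarith)
  linarith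

theorem EU_gen (ε : ℝ) (hε : 0 < ε) (y : ℕ) (σ z : ℝ) (hσ1 : 1 / 2 + ε ≤ σ) (hσ2 : σ ≤ 1)
    (hz : 2 ≤ z) (f : ℝ → ℝ) (A : ℝ) (hA : 0 ≤ A) (hf1 : ∀ x, 0 ≤ x → f x ≤ A * x)
    (hf2 : ∀ x, 0 ≤ x → f x ≤ A * x ^ 2) :
    ∑ p : Pr y, f (z ^ σ * aa σ p) ≤
      A * (3 + 2 * (2 ^ (2 * ε) / (2 * ε))) * z * Real.log z ∧
    ∑ p : Pr y, f (z ^ σ * aa σ p) * Real.log p ≤
      A * (3 + 2 * (2 ^ (2 * ε) / (2 * ε)) + 4 / ε * (2 ^ ε / ε)) * z * Real.log z ^ 2 := by
  have hz0 : 0 < z := by linarith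
  have hl : 1 / 2 ≤ Real.log z := by
    have := Real.log_two_gt_d9
    have := Real.log_le_log (by norm_num) hz
    linarith
  have hx : ∀ n : ℕ, z ^ σ * aa σ n = (z / n) ^ σ := by
    intro n
    unfold aa
    rw [Real.div_rpow hz0.le (by positivity), Real.rpow_neg (by positivity)]; rfl
  have hb1 : ∀ n : ℕ, 1 ≤ n → n ≤ ⌊z⌋₊ → f (z ^ σ * aa σ n) ≤ A * (z / n) := by
    intro n hn hnz
    have hn0 : (0:ℝ) < n := by exact_mod_cast hn
    have h1 : (n : ℝ) ≤ z := (Nat.le_floor_iff hz0.le).mp hnz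
    have h2 : 1 ≤ z / n := by rw [le_div_iff₀ hn0]; linarith
    rw [hx]
    refine (hf1 _ (by positivity)).trans ?_
    apply mul_le_mul_of_nonneg_left _ hA
    calc (z / n) ^ σ ≤ (z / n) ^ (1:ℝ) := Real.rpow_le_rpow_of_exponent_le h2 hσ2
      _ = z / n := Real.rpow_one _
  have hb2 : ∀ n : ℕ, ⌊z⌋₊ < n → f (z ^ σ * aa σ n) ≤ A * (z / n) ^ (1 + 2 * ε) := by
    intro n hn
    have hn0 : (0:ℝ) < n := by exact_mod_cast (by omega : 0 < n)
    have h1 : z < n := (Nat.floor_lt hz0.le).mp hn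
    have h2 : z / n ≤ 1 := by rw [div_le_iff₀ hn0]; linarith
    rw [hx]
    refine (hf2 _ (by positivity)).trans ?_
    apply mul_le_mul_of_nonneg_left _ hA
    rw [← Real.rpow_natCast, ← Real.rpow_mul (by positivity)]
    apply Real.rpow_le_rpow_of_exponent_ge (by positivity) h2
    push_cast
    linarith
  have T1 := EU_tz (2 * ε) z (by positivity) hz y
  have T2 := EU_tz ε z hε hz y
  have H := EU_harm z hz
  set c1 : ℝ := 2 ^ (2 * ε) / (2 * ε) with hc1
  set c2 : ℝ := 2 ^ ε / ε with hc2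
  have hc10 : 0 ≤ c1 := by positivity
  have hc20 : 0 ≤ c2 := by positivity
  constructor
  · refine (EU_split y ⌊z⌋₊ (fun n => f (z ^ σ * aa σ n)) (fun n => A * (z / n))
      (fun n => A * (z / n) ^ (1 + 2 * ε)) hb1 hb2 (fun n => by positivity)
      (fun n => by positivity)).trans ?_
    rw [← Finset.mul_sum, ← Finset.mul_sum, ← mul_add, mul_assoc, mul_assoc]
    apply mul_le_mul_of_nonneg_left _ hA
    have : c1 * z ≤ 2 * c1 * (z * Real.log z) := by
      have : c1 * z * 1 ≤ c1 * z * (2 * Real.log z) :=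
        mul_le_mul_of_nonneg_left (by linarith) (by positivity)
      linarith
    linarith
  · refine (EU_split y ⌊z⌋₊ (fun n => f (z ^ σ * aa σ n) * Real.log n)
      (fun n => A * (z / n) * Real.log z)
      (fun n => A * (z / n) ^ (1 + 2 * ε) * Real.log z + A * (1 / ε) * (z / n) ^ (1 + ε))
      ?_ ?_ (fun n => by positivity) (fun n => by positivity)).trans ?_
    · intro n hn hnz
      have hn0 : (0:ℝ) < n := by exact_mod_cast hn
      have h1 : (n : ℝ) ≤ z := (Nat.le_floor_iff hz0.le).mp hnz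
      have h3 : Real.log n ≤ Real.log z := Real.log_le_log hn0 h1
      have h4 : 0 ≤ Real.log n := Real.log_natCast_nonneg n
      calc f (z ^ σ * aa σ n) * Real.log n ≤ A * (z / n) * Real.log n :=
            mul_le_mul_of_nonneg_right (hb1 n hn hnz) h4
        _ ≤ A * (z / n) * Real.log z := mul_le_mul_of_nonneg_left h3 (by positivity)
    · intro n hn
      have hn0 : (0:ℝ) < n := by exact_mod_cast (by omega : 0 < n)
      have h1 : z < n := (Nat.floor_lt hz0.le).mp hn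
      have h4 : 0 ≤ Real.log n := Real.log_natCast_nonneg n
      have h5 : Real.log n ≤ Real.log z + 1 / ε * (z / n) ^ (-ε) := by
        have h6 : Real.log n = Real.log z + Real.log (n / z) := by
          rw [Real.log_div hn0.ne' hz0.ne']; ring
        have h7 : Real.log (n / z) ≤ (n / z) ^ ε / ε := Real.log_le_rpow_div (by positivity) hε
        have h8 : (z / n) ^ (-ε) = (n / z) ^ ε := by
          rw [Real.rpow_neg (by positivity), ← Real.inv_rpow (by positivity), inv_div]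
        rw [h6, h8]
        have : 1 / ε * (n / z) ^ ε = (n / z) ^ ε / ε := by ring
        linarith
      have h9 : (z / (n:ℝ)) ^ (1 + ε) = (z / n) ^ (1 + 2 * ε) * (z / n) ^ (-ε) := by
        rw [← Real.rpow_add (by positivity)]; congr 1; ring
      calc f (z ^ σ * aa σ n) * Real.log n ≤ A * (z / n) ^ (1 + 2 * ε) * Real.log n :=
            mul_le_mul_of_nonneg_right (hb2 n hn) h4
        _ ≤ A * (z / n) ^ (1 + 2 * ε) * (Real.log z + 1 / ε * (z / n) ^ (-ε)) :=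
            mul_le_mul_of_nonneg_left h5 (by positivity)
        _ = _ := by rw [h9]; ring
    · rw [Finset.sum_add_distrib, ← Finset.sum_mul, ← Finset.sum_mul, ← Finset.mul_sum,
        ← Finset.mul_sum, ← Finset.mul_sum]
      have e1 : A * (∑ n ∈ Finset.Icc 1 ⌊z⌋₊, z / (n : ℝ)) * Real.log z ≤
          A * (3 * z * Real.log z) * Real.log z := by gcongr
      have e2 : A * (∑ n ∈ Finset.Ioc ⌊z⌋₊ y, (z / (n : ℝ)) ^ (1 + 2 * ε)) * Real.log z ≤
          A * (c1 * z) * Real.log z := by gcongr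
      have e3 : A * (1 / ε) * (∑ n ∈ Finset.Ioc ⌊z⌋₊ y, (z / (n : ℝ)) ^ (1 + ε)) ≤
          A * (1 / ε) * (c2 * z) := by gcongr
      have e4 : A * (c1 * z) * Real.log z ≤ A * (c1 * z) * Real.log z * (2 * Real.log z) := by
        have : A * (c1 * z) * Real.log z * 1 ≤ A * (c1 * z) * Real.log z * (2 * Real.log z) :=
          mul_le_mul_of_nonneg_left (by linarith) (by positivity)
        linarith
      have e5 : A * (1 / ε) * (c2 * z) ≤ A * (1 / ε) * (c2 * z) * (4 * Real.log z ^ 2) := by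
        have h1 : 1 ≤ 4 * Real.log z ^ 2 := by nlinarith
        have : A * (1 / ε) * (c2 * z) * 1 ≤ A * (1 / ε) * (c2 * z) * (4 * Real.log z ^ 2) :=
          mul_le_mul_of_nonneg_left h1 (by positivity)
        linarith
      have e6 : A * (3 + 2 * c1 + 4 / ε * c2) * z * Real.log z ^ 2 =
          A * (3 * z * Real.log z) * Real.log z + A * (c1 * z) * Real.log z * (2 * Real.log z) +
          A * (1 / ε) * (c2 * z) * (4 * Real.log z ^ 2) := by ring
      rw [e6]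
      linarith

theorem eu_of (h1 : ST_VM3) : ST_EU := by
  intro ε hε
  obtain ⟨hV1, hV2⟩ := h1
  set C1 : ℝ := 3 + 2 * (2 ^ (2 * ε) / (2 * ε)) with hC1
  set C2 : ℝ := 3 + 2 * (2 ^ (2 * ε) / (2 * ε)) + 4 / ε * (2 ^ ε / ε) with hC2
  have hε0 := hε.1
  have h10 : 0 < C1 := by positivity
  have h20 : 0 < C2 := by positivity
  refine ⟨9 * (C1 + C2), by positivity, ?_⟩
  intro y σ z hσ hz
  have hz0 : 0 < z := by linarith
  have hl : 0 ≤ Real.log z := Real.log_nonneg (by linarith)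
  have G1 := EU_gen ε hε0 y σ z hσ.1 hσ.2 hz (fun x => ell (3 * x)) 9 (by norm_num) (by
    intro x hx
    have := (hV2 (3 * x) (by positivity)).2.2.2.1
    show ell (3 * x) ≤ 9 * x
    linarith) (by
    intro x hx
    obtain ⟨a1, a2, a3, a4, a5⟩ := hV2 (3 * x) (by positivity)
    show ell (3 * x) ≤ 9 * x ^ 2
    nlinarith)
  have G2 := EU_gen ε hε0 y σ z hσ.1 hσ.2 hz (fun x => x * rr x) 1 (by norm_num) (by
    intro x hx
    have := (hV1 x).2.2.2
    show x * rr x ≤ 1 * x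
    nlinarith) (by
    intro x hx
    obtain ⟨a1, a2, a3, a4, a5⟩ := hV2 x hx
    show x * rr x ≤ 1 * x ^ 2
    nlinarith)
  obtain ⟨A1, -⟩ := G1
  obtain ⟨A2, A3⟩ := G2
  rw [← hC1] at A1 A2
  rw [← hC2] at A3
  have k1 : 0 ≤ z * Real.log z := by positivity
  have k2 : 0 ≤ z * Real.log z ^ 2 := by positivity
  refine ⟨?_, ?_, ?_⟩
  · have e : ∑ p : Pr y, ell (3 * (z ^ σ * aa σ p)) = ∑ p : Pr y, (fun x => ell (3 * x))
        (z ^ σ * aa σ p) := rfl
    rw [e]
    refine A1.trans ?_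
    nlinarith [mul_nonneg h20.le k1]
  · have e : z ^ σ * muy y σ (z ^ σ) = ∑ p : Pr y, (fun x => x * rr x) (z ^ σ * aa σ p) := by
      unfold muy
      rw [Finset.mul_sum]
      apply Finset.sum_congr rfl
      intro p _
      show z ^ σ * (aa σ p * rr (z ^ σ * aa σ p)) = z ^ σ * aa σ p * rr (z ^ σ * aa σ p)
      ring
    rw [e]
    refine A2.trans ?_
    nlinarith [mul_nonneg h20.le k1, mul_nonneg h10.le k1]
  · have e : z ^ σ * omy y σ (z ^ σ) =
        ∑ p : Pr y, (fun x => x * rr x) (z ^ σ * aa σ p) * Real.log p := by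
      unfold omy
      rw [Finset.mul_sum]
      apply Finset.sum_congr rfl
      intro p _
      show z ^ σ * (aa σ p * Real.log p * rr (z ^ σ * aa σ p)) =
        z ^ σ * aa σ p * rr (z ^ σ * aa σ p) * Real.log p
      ring
    rw [e]
    refine A3.trans ?_
    nlinarith [mul_nonneg h20.le k2, mul_nonneg h10.le k2]

end Pool.Agent.Helper57.QZ
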